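import Pool.Agent.V8H42.TV.Final
import Pool.Agent.V8H42.TV.Orbit

set_option autoImplicit false

/-!
# The topological Vaught conjecture for actions whose stabilizers are cli groups

Let `G` be an arbitrary Polish group and `X` a Borel `G`-space. If the stabilizers of all points are
cli groups (their topology is given by a complete left invariant metric), or if this fails for
countably many orbits only, then there are countably many orbits, or there is a Borel map from the
Cantor space to `X` that sends distinct points to distinct orbits. In other words: in every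
counterexample to the topological Vaught conjecture uncountably many orbits have stabilizers that
are not cli.

For actions of cli groups this is a theorem of Becker (closed subgroups of cli groups are cli); here
nothing is assumed about `G`. For example, `G` can be the group of all permutations of `ℕ`: Vaught's
conjecture holds for the Borel classes of countable structures whose automorphism groups are cli
(with countably many exceptions up to isomorphism), that is, for which no structure in the class has
a proper elementary self-embedding for `L_ω₁ω`. The orbit equivalence relation of such an action is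
in general not Borel, and the space may have points with different stabilizers of all kinds.

Proof (all of it is in `Pool.Agent.V8H42.TV`). Let `X` have uncountably many orbits, but no perfect
set of inequivalent points.
(1) For a well-founded relation on a countable set define the relations `(x, V) ≤ᵢ (y, W)` for points
`x`, `y` and open sets `V`, `W` of group elements: for every set `A n` of a fixed separating family,
if nonmeagerly many elements of `V` move `x` into `A n` then so do elements of `W` for `y`, and for
all `j` below `i` and all basic open `V' ⊆ V` there is a basic open `W' ⊆ W` with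
`(y, W') ≤ⱼ (x, V')` (a version of the Scott analysis of Hjorth, for Borel actions). A form of
Silver's theorem for pairs of relations `L ∘ L ⊆ L'` shows that `X` is covered by countably many
Borel sets such that `(x, V) ≤ᵢ (z, W)` for all `x`, `z` in one of them, for given small
neighbourhoods `V`, `W` of the identity, `V` much smaller than `W`.
(2) Refine the topology of `X` so that these sets and their Vaught transforms are open. Two
inequivalent points have the same type, and by the theorems of Kuratowski, Ulam and Mycielski there
is a point `x₀` of this type with comeager local orbits near `x₀`. It follows that there are a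
point `y` in a different orbit and a divergent sequence of group elements `g n` with
`g (n + 1) (g n)⁻¹` near the identity, such that `g n • y` tends to `x₀`; so `y` is related to
`x₀` on all levels of the given well-founded relation.
(3) The set of all relations on `ℕ` for which there are such `x₀`, `y` and `g` is analytic. So it
contains a relation which is not well-founded. Going back and forth along a descending sequence one
finds that `g n • y = k n • x₀` with `k n` near the identity. This gives a divergent Cauchy sequence
of elements of the stabilizer of `x₀`. The exceptional orbits are removed at the beginning; orbits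
are Borel sets.
-/

namespace Pool.Agent.Results.MP_5607ba_lc.CompleteStabilizers

open Set Filter Topology

/-- `H` is a cli group: the topology of `H` is given by a complete left invariant metric. -/
def IsCLI (H : Type) [τ : TopologicalSpace H] [Group H] : Prop :=
  ∃ d : MetricSpace H, d.toPseudoMetricSpace.toUniformSpace.toTopologicalSpace = τ ∧
    @CompleteSpace H d.toPseudoMetricSpace.toUniformSpace ∧
    ∀ a b c : H, d.dist (a * b) (a * c) = d.dist b c

/-- in a cli stabilizer the Cauchy sequences for the right uniformity converge -/
theorem complete_of_cli {G X : Type} [TopologicalSpace G] [Group G] [IsTopologicalGroup G]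
    [MulAction G X] {x : X} (h : IsCLI (MulAction.stabilizer G x)) (t : ℕ → G)
    (ht : ∀ n, t n • x = x) (hc : ∀ O : Set G, IsOpen O → (1 : G) ∈ O →
      ∃ N, ∀ m n, N ≤ m → N ≤ n → t m * (t n)⁻¹ ∈ O) : ∃ a, Tendsto t atTop (𝓝 a) := by
  obtain ⟨d, hd, hcomp, hinv⟩ := h
  let s : ℕ → MulAction.stabilizer G x := fun n => (⟨t n, ht n⟩ : MulAction.stabilizer G x)⁻¹
  have hs : ∃ a, @Tendsto ℕ (MulAction.stabilizer G x) s atTop
      (@nhds _ d.toPseudoMetricSpace.toUniformSpace.toTopologicalSpace a) := by
    let _ := d
    have hcau : CauchySeq s := by
      rw [Metric.cauchySeq_iff]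
      intro ε hε
      have hball : IsOpen[d.toPseudoMetricSpace.toUniformSpace.toTopologicalSpace]
          (Metric.ball (1 : MulAction.stabilizer G x) ε) := Metric.isOpen_ball
      rw [hd] at hball
      obtain ⟨O, hO, hOb⟩ := isOpen_induced_iff.1 hball
      have h1 : (1 : G) ∈ O := by
        have h2 : (1 : MulAction.stabilizer G x) ∈ Subtype.val ⁻¹' O := by
          rw [hOb]
          exact Metric.mem_ball_self hε
        exact h2
      obtain ⟨N, hN⟩ := hc O hO h1
      refine ⟨N, fun m hm n hn => ?_⟩
      have h2 : (s m)⁻¹ * s n ∈ Metric.ball (1 : MulAction.stabilizer G x) ε := by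
        rw [← hOb]
        show ((((⟨t m, ht m⟩ : MulAction.stabilizer G x)⁻¹)⁻¹ *
          (⟨t n, ht n⟩ : MulAction.stabilizer G x)⁻¹ : MulAction.stabilizer G x) : G) ∈ O
        rw [inv_inv]
        exact hN m n hm hn
      rw [Metric.mem_ball] at h2
      have h3 := hinv (s m)⁻¹ (s m) (s n)
      rw [inv_mul_cancel] at h3
      have h4 : dist (s m) (s n) = dist (1 : MulAction.stabilizer G x) ((s m)⁻¹ * s n) := h3.symm
      rw [h4, dist_comm]
      exact h2
    exact cauchySeq_tendsto_of_complete hcau
  obtain ⟨a, ha⟩ := hs
  rw [hd] at ha
  refine ⟨((a⁻¹ : MulAction.stabilizer G x) : G), ?_⟩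
  have h1 : Tendsto (fun n => ((s n)⁻¹ : MulAction.stabilizer G x)) atTop (𝓝 a⁻¹) := ha.inv
  have h2 := (continuous_subtype_val.tendsto _).comp h1
  refine h2.congr fun n => ?_
  show (((((⟨t n, ht n⟩ : MulAction.stabilizer G x)⁻¹)⁻¹ : MulAction.stabilizer G x)) : G) = t n
  rw [inv_inv]

/-- **The topological Vaught conjecture for actions with cli stabilizers.** Let `G` be a Polish
group and `X` a Borel `G`-space such that at most countably many orbits have stabilizers that are
not cli groups. Then there are countably many orbits, or there is a Borel map from the Cantor space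
to `X` that sends distinct points to distinct orbits. -/
theorem result (G : Type) [TopologicalSpace G] [Group G] [IsTopologicalGroup G] [PolishSpace G]
    [MeasurableSpace G] [BorelSpace G] (X : Type) [MeasurableSpace X] [StandardBorelSpace X]
    [MulAction G X] [MeasurableSMul₂ G X]
    (h : {o : Quotient (MulAction.orbitRel G X) |
      ∃ x : X, Quotient.mk _ x = o ∧ ¬ IsCLI (MulAction.stabilizer G x)}.Countable) :
    Countable (Quotient (MulAction.orbitRel G X)) ∨
      ∃ f : (ℕ → Bool) → X, Measurable f ∧ ∀ x y : ℕ → Bool, x ≠ y → ¬ ∃ g : G, g • f x = f y := by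
  have hm : Measurable fun p : G × X => p.1 • p.2 := measurable_smul
  obtain ⟨A, hA, hsep⟩ := Pool.Agent.V8H42.TV.exists_separating X
  let S : Set X := Quotient.out '' {o : Quotient (MulAction.orbitRel G X) |
    ∃ x : X, Quotient.mk _ x = o ∧ ¬ IsCLI (MulAction.stabilizer G x)}
  have hS : S.Countable := h.image _
  let Y : SubMulAction G X := ⟨{y | ∀ s ∈ S, ¬ ∃ g : G, g • s = y}, by
    rintro g y hy s hs ⟨k, hk⟩
    refine hy s hs ⟨g⁻¹ * k, ?_⟩
    rw [mul_smul, hk, inv_smul_smul]⟩
  have hYm : MeasurableSet (Y : Set X) := by
    have : (Y : Set X) = ⋂ s ∈ S, {y : X | ∃ g : G, g • s = y}ᶜ := by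
      ext y
      simp only [mem_iInter, mem_compl_iff]
      exact Iff.rfl
    rw [this]
    exact MeasurableSet.biInter hS fun s _ =>
      (Pool.Agent.V8H42.TV.meas_orbit hm hA hsep s).compl
  have _ : StandardBorelSpace Y := hYm.standardBorel
  have hmY : Measurable fun p : G × Y => p.1 • p.2 :=
    Measurable.subtype_mk (hm.comp (measurable_fst.prodMk
      (measurable_subtype_coe.comp measurable_snd)))
  have hcli : ∀ (y : Y) (t : ℕ → G), (∀ n, t n • y = y) →
      (∀ O : Set G, IsOpen O → (1 : G) ∈ O → ∃ N, ∀ m n, N ≤ m → N ≤ n →
        t m * (t n)⁻¹ ∈ O) → ∃ a, Tendsto t atTop (𝓝 a) := by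
    intro y t ht hc
    refine complete_of_cli (x := (y : X)) ?_ t (fun n => congrArg Subtype.val (ht n)) hc
    by_contra hn
    have h1 : Quotient.mk (MulAction.orbitRel G X) (y : X) ∈
        {o : Quotient (MulAction.orbitRel G X) |
          ∃ x : X, Quotient.mk _ x = o ∧ ¬ IsCLI (MulAction.stabilizer G x)} :=
      ⟨(y : X), rfl, hn⟩
    refine y.2 _ ⟨_, h1, rfl⟩ ?_
    have h2 : (MulAction.orbitRel G X).r (y : X)
        (Quotient.mk (MulAction.orbitRel G X) (y : X)).out :=
      Quotient.exact (Quotient.out_eq (Quotient.mk (MulAction.orbitRel G X) (y : X))).symm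
    obtain ⟨g, hg⟩ := h2
    exact ⟨g, hg⟩
  rcases Pool.Agent.V8H42.TV.main hmY hcli with ⟨T, hT, hT2⟩ | ⟨f, hf, hf2⟩
  · left
    have h1 : (univ : Set (Quotient (MulAction.orbitRel G X))) ⊆
        (Quotient.mk (MulAction.orbitRel G X)) '' (Subtype.val '' T ∪ S) := by
      intro o _
      obtain ⟨x, rfl⟩ := Quotient.exists_rep o
      by_cases hx : x ∈ (Y : Set X)
      · obtain ⟨s, hs, g, hg⟩ := hT2 ⟨x, hx⟩
        refine ⟨(s : X), Or.inl ⟨s, hs, rfl⟩, (Quotient.sound ?_).symm⟩
        exact ⟨g, congrArg Subtype.val hg⟩
      · have h2 : ∃ s ∈ S, ∃ g : G, g • s = x := by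
          by_contra hcon
          push Not at hcon
          exact hx fun s hs ⟨g, hg⟩ => hcon s hs g hg
        obtain ⟨s, hs, g, hg⟩ := h2
        refine ⟨s, Or.inr hs, (Quotient.sound ?_).symm⟩
        exact ⟨g, hg⟩
    exact countable_univ_iff.1 (((((hT.image _).union hS).image _)).mono h1)
  · right
    refine ⟨fun b => (f b : X), measurable_subtype_coe.comp hf, fun a b hab hg => ?_⟩
    obtain ⟨g, hg⟩ := hg
    exact hf2 a b hab ⟨g, Subtype.ext hg⟩

end Pool.Agent.Results.MP_5607ba_lc.CompleteStabilizers
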