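import Pool.Agent.V8H59.VQ.Lab
import Pool.Agent.Results.MP_5607ba_lc.CompleteStabilizers
import Pool.Agent.Results.MP_5df2c5_lc.FiniteFlips

set_option autoImplicit false
set_option linter.style.haveILetI false

/-!
# Structures built from pieces with complete automorphism groups, and wreath products

Let `G` be an arbitrary Polish group and `X` a Borel `G`-space such that the stabilizers of the
points are cli groups, with the exception of countably many orbits; for example, `G` is trivial and
`X` is a point. The countable-or-perfect dichotomy holds for the action of the Polish group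
`G ≀ Sym(ℕ)` on the countable structures whose elements are labelled by points of `X`, for all
invariant Borel sets of such structures in which the structures (without the labels) are built from
structures with complete automorphism groups and from sparse structures.

Here a structure has a complete automorphism group if every pointwise limit of automorphisms is onto
(equivalently, if its automorphism group is a cli group). Structures are built as follows: ordered
sums, generalised sums, tree sums, structures all of whose infinite prime quotients (for the modular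
decomposition) are of the given kind, countable unions of classes, and structures which are coded in
a Borel way, with finitely many parameters, by structures of the given kind. The automorphism groups
of the resulting structures are in general not cli, and isomorphism is not Borel.

So in every counterexample to the topological Vaught conjecture which is a Borel class of countable
structures there are uncountably many isomorphism types with an infinite prime quotient whose
automorphism group is not cli.

The proof combines the theorem on actions with cli stabilizers (`CompleteStabilizers`) with the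
closure theorems of the starting files (`MP_5df2c5_lc.FiniteFlips`, whose proofs are in
`Pool.Agent.H533R2`, `Pool.Agent.W875`, `Pool.Agent.TH425`, and
`MP_5607ba_lc.LabelledStructures`). For this it is shown that the class of the structures with
complete automorphism groups is coanalytic, and that the dichotomy for the action of `Sym(ℕ)` on
the expansions of its members by unary predicates follows from the one for actions with cli
stabilizers.
-/

namespace Pool.Agent.Results.MP_5607ba_lc.CompletePieces

open MeasureTheory

/-- Relational structures on `ℕ` with relations of arities `a 0, a 1, ...`. -/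
abbrev Str (a : ℕ → ℕ) : Type := (i : ℕ) → (Fin (a i) → ℕ) → Bool

/-- Structures with further unary predicates. -/
abbrev UStr (a : ℕ → ℕ) : Type := Str a × (ℕ → ℕ → Bool)

/-- `σ` is an isomorphism from `x` to `y`. -/
def IsIso {a : ℕ → ℕ} (σ : Equiv.Perm ℕ) (x y : Str a) : Prop :=
  ∀ (i : ℕ) (v : Fin (a i) → ℕ), y i (⇑σ ∘ v) = x i v

/-- Isomorphism of structures. -/
def Iso {a : ℕ → ℕ} (x y : Str a) : Prop := ∃ σ : Equiv.Perm ℕ, IsIso σ x y

/-- Isomorphism of structures with unary predicates. -/
def UIso {a : ℕ → ℕ} (x y : UStr a) : Prop :=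
  ∃ σ : Equiv.Perm ℕ, IsIso σ x.1 y.1 ∧ ∀ i u, y.2 i (σ u) = x.2 i u

/-- The class `V` satisfies Vaught's conjecture, in perfect-set form: every isomorphism-invariant
Borel subclass `B` of `V` has countably many isomorphism types, or there is a continuous family of
pairwise non-isomorphic members of `B` indexed by the Cantor space. -/
def Vaught {a : ℕ → ℕ} (V : Str a → Prop) : Prop :=
  ∀ B : Set (Str a), MeasurableSet B → (∀ x y, Iso x y → (x ∈ B ↔ y ∈ B)) → (∀ x ∈ B, V x) →
    (∃ f : ℕ → Str a, ∀ x ∈ B, ∃ n, Iso (f n) x) ∨
    (∃ g : (ℕ → Bool) → Str a, Continuous g ∧ (∀ c, g c ∈ B) ∧ ∀ c d, Iso (g c) (g d) → c = d)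

/-- The same for the isomorphism-invariant Borel classes of expansions of members of `V` by
countably many unary predicates. -/
def UVaught {a : ℕ → ℕ} (V : Str a → Prop) : Prop :=
  ∀ B : Set (UStr a), MeasurableSet B → (∀ x y, UIso x y → (x ∈ B ↔ y ∈ B)) →
    (∀ x ∈ B, V x.1) →
    (∃ f : ℕ → UStr a, ∀ x ∈ B, ∃ n, UIso (f n) x) ∨
    (∃ g : (ℕ → Bool) → UStr a, Continuous g ∧ (∀ c, g c ∈ B) ∧
      ∀ c d, UIso (g c) (g d) → c = d)

/-- The automorphism group of `x` is complete: every function `f` which is a pointwise limit of
automorphisms of `x` is onto. -/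
def CompleteAut {a : ℕ → ℕ} (x : Str a) : Prop :=
  ∀ f : ℕ → ℕ, (∀ n, ∃ σ : Equiv.Perm ℕ, IsIso σ x x ∧ ∀ m < n, σ m = f m) →
    Function.Surjective f

/-- The tuple `(u, v)`. -/
def pair {n : ℕ} (u v : ℕ) : Fin n → ℕ := fun j => if j.val = 0 then u else v

/-- The tuple `(u, v, w)`. -/
def triple {n : ℕ} (u v w : ℕ) : Fin n → ℕ :=
  fun j => if j.val = 0 then u else if j.val = 1 then v else w

/-- `G` contains a subdivision of the infinite complete graph `K_ℵ₀`: distinct branch vertices
`v 0, v 1, ...` and for all `i < j` a path `P i j` in `G` from `v i` to `v j` whose only branch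
vertices are its ends, such that different paths meet only in branch vertices. -/
def HasInfiniteCliqueSubdivision (G : SimpleGraph ℕ) : Prop :=
  ∃ v : ℕ → ℕ, Function.Injective v ∧ ∃ P : ∀ i j, G.Walk (v i) (v j),
    (∀ i j, i < j → (P i j).IsPath) ∧
    (∀ i j k, i < j → v k ∈ (P i j).support → k = i ∨ k = j) ∧
    (∀ i j i' j', i < j → i' < j' → (i, j) ≠ (i', j') → ∀ x, x ∈ (P i j).support →
      x ∈ (P i' j').support → ∃ k, x = v k)

/-- `x` is a finite flip of a sparse structure: there are a graph `S` without infinite clique
subdivision, a colouring `p` of the points with finitely many colours and for every binary relation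
a pattern `f i` on the colours such that `x i (u, v) = f i (p u) (p v)` for all pairs of distinct
points that are not adjacent in `S`; the relations that are not binary hold only for tuples whose
entries are pairwise equal or adjacent in `S`. -/
def FlipSparse {a : ℕ → ℕ} (x : Str a) : Prop :=
  ∃ (S : SimpleGraph ℕ) (k : ℕ) (p : ℕ → Fin k) (f : ℕ → Fin k → Fin k → Bool),
    ¬ HasInfiniteCliqueSubdivision S ∧
    (∀ i, a i = 2 → ∀ u v, u ≠ v → ¬ S.Adj u v → x i (pair u v) = f i (p u) (p v)) ∧
    (∀ i, a i ≠ 2 → ∀ t, x i t = true → ∀ j l, t j = t l ∨ S.Adj (t j) (t l))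

/-- `x` is an ordered sum, over an arbitrary linear order, of finite structures and of infinite
structures in `V`: the relation number `ε` is a strict weak order and the other relations hold only
for tuples inside one incomparability class. -/
structure OrdSum {a : ℕ → ℕ} (ε : ℕ) (V : Str a → Prop) (x : Str a) : Prop where
  irrefl : ∀ u, x ε (pair u u) = false
  trans : ∀ u v w, x ε (pair u v) = true → x ε (pair v w) = true → x ε (pair u w) = true
  weak : ∀ u v w, x ε (pair u w) = true → x ε (pair u v) = true ∨ x ε (pair v w) = true
  inside : ∀ i, i ≠ ε → ∀ t, x i t = true → ∀ j l, x ε (pair (t j) (t l)) = false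
  blocks : ∀ (u : ℕ) (e : ℕ → ℕ), Function.Injective e →
    (∀ z, (x ε (pair z u) = false ∧ x ε (pair u z) = false) ↔ ∃ n, e n = z) →
    V (fun i v => if i ≠ ε then x i (e ∘ v) else false)

/-- `x` is a generalised sum of blocks over an index structure. The relation number `ε` is an
equivalence relation, its classes are the blocks. The relations `i ≠ ε` with `k i = false` hold
only for tuples inside one block; the relations `i ≠ ε` with `k i = true` depend only on the
blocks of the entries. Every infinite block, with the relations of the first kind and transported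
to `ℕ` by any bijection `e`, is in `V₂`; the structure of the blocks, with the relations of the
second kind, if there are infinitely many blocks, is in `V₁` (`e` is any enumeration of a system of
representatives). -/
structure GenSum {a : ℕ → ℕ} (ε : ℕ) (k : ℕ → Bool) (V₁ V₂ : Str a → Prop) (x : Str a) :
    Prop where
  refl : ∀ u, x ε (pair u u) = true
  symm : ∀ u v, x ε (pair u v) = true → x ε (pair v u) = true
  trans : ∀ u v w, x ε (pair u v) = true → x ε (pair v w) = true → x ε (pair u w) = true
  inside : ∀ i, i ≠ ε → k i = false → ∀ t, x i t = true → ∀ j l, x ε (pair (t j) (t l)) = true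
  across : ∀ i, i ≠ ε → k i = true → ∀ t t' : Fin (a i) → ℕ,
    (∀ j, x ε (pair (t j) (t' j)) = true) → x i t = x i t'
  blocks : ∀ (u : ℕ) (e : ℕ → ℕ), Function.Injective e →
    (∀ z, x ε (pair u z) = true ↔ ∃ n, e n = z) →
    V₂ (fun i v => if i ≠ ε ∧ k i = false then x i (e ∘ v) else false)
  index : ∀ e : ℕ → ℕ, (∀ m n, x ε (pair (e m) (e n)) = true ↔ m = n) →
    (∀ z, ∃ n, x ε (pair (e n) z) = true) →
    V₁ (fun i v => if i ≠ ε ∧ k i = true then x i (e ∘ v) else false)

open Classical in
/-- `x` is a tree sum. The ternary relation number `δ` is a C-relation: `δ(u, v, w)` says that the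
leaves `u`, `v` of a tree are together in a cone that does not contain `w`. All cones
`{v | δ(u, v, w)}` are modules for the other relations (`mod`). At every node with infinitely many
children, if `e` enumerates representatives of the children, the structure of the children is in
`V`; nodes with finitely many children are arbitrary. -/
structure TreeSum {a : ℕ → ℕ} (δ : ℕ) (V : Str a → Prop) (x : Str a) : Prop where
  refl : ∀ u w, u ≠ w → x δ (triple u u w) = true
  irr : ∀ u v, x δ (triple u v u) = false
  symm : ∀ u v w, x δ (triple u v w) = true → x δ (triple v u w) = true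
  asymm : ∀ u v w, x δ (triple u v w) = true → x δ (triple u w v) = false
  branch : ∀ u v w, x δ (triple u v w) = true → ∀ z,
    x δ (triple u v z) = true ∨ x δ (triple z v w) = true
  mod : ∀ i, i ≠ δ → ∀ (t : Fin (a i) → ℕ) (k l : Fin (a i)) (b : ℕ),
    x δ (triple (t k) b (t l)) = true → x i (Function.update t k b) = x i t
  nodes : ∀ e : ℕ → ℕ, Function.Injective e →
    (∀ l m n, l ≠ m → l ≠ n → m ≠ n → x δ (triple (e l) (e m) (e n)) = false) →
    (∀ u, x δ (triple (e 0) (e 1) u) = false → ∃ n, ∀ m, m ≠ n →
      x δ (triple u (e n) (e m)) = true) →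
    V (fun i v => if i ≠ δ ∧ ∃ j l, v j ≠ v l then x i (e ∘ v) else false)

/-- `X` is a module of `x`: the value of a relation at a tuple with an entry outside `X` does not
change if an entry in `X` is replaced by another point of `X`. -/
def IsModule {a : ℕ → ℕ} (x : Str a) (X : Set ℕ) : Prop :=
  ∀ (i : ℕ) (t : Fin (a i) → ℕ) (k l : Fin (a i)) (b : ℕ),
    t k ∈ X → b ∈ X → t l ∉ X → x i (Function.update t k b) = x i t

/-- All modules with at least two points are the whole structure. -/
def IsPrime {a : ℕ → ℕ} (x : Str a) : Prop :=
  ∀ Y : Set ℕ, IsModule x Y → Y.Subsingleton ∨ Y = Set.univ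

open Classical in
/-- The quotient structure with representatives `e 0, e 1, ...`; constant tuples are removed from
all relations. -/
noncomputable def quotient {a : ℕ → ℕ} (x : Str a) (e : ℕ → ℕ) : Str a :=
  fun i v => if ∃ j l, v j ≠ v l then x i (e ∘ v) else false

/-- Every infinite prime quotient of `x` is in `V`: if a module of `x` is the union of disjoint
modules `X 0, X 1, ...` and the quotient is prime, then the quotient is in `V`. There is no
restriction on the finite quotients, nor on the quotients that are not prime. -/
def PrimeQuotientsIn {a : ℕ → ℕ} (V : Str a → Prop) (x : Str a) : Prop :=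
  ∀ (X : ℕ → Set ℕ) (e : ℕ → ℕ), (∀ n, e n ∈ X n) → (∀ n, IsModule x (X n)) →
    (∀ m n, m ≠ n → Disjoint (X m) (X n)) → IsModule x (⋃ n, X n) →
    IsPrime (quotient x e) → V (quotient x e)

/-- Relabelling of a structure by a permutation. -/
def act {a : ℕ → ℕ} (σ : Equiv.Perm ℕ) (x : Str a) : Str a := fun i v => x i (⇑σ.symm ∘ v)

/-- For every tuple of parameters `p` there are Borel maps `c p` and `d p` in both directions, and
they commute with the permutations of `ℕ`. (By the theorem of Lopez-Escobar these are the
interpretations given by formulas of `L_ω₁ω` with the parameters `p`.) -/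
structure Coding {a b : ℕ → ℕ} (c : List ℕ → Str a → Str b) (d : List ℕ → Str b → Str a) :
    Prop where
  borel_c : ∀ p, Measurable (c p)
  borel_d : ∀ p, Measurable (d p)
  act_c : ∀ (σ : Equiv.Perm ℕ) (p : List ℕ) (x : Str a), c (p.map σ) (act σ x) = act σ (c p x)
  act_d : ∀ (σ : Equiv.Perm ℕ) (p : List ℕ) (z : Str b), d (p.map σ) (act σ z) = act σ (d p z)

/-- The structures `x` which, for some finite tuple of parameters `p`, are coded by a structure
`c p x` in `V`, from which `d p` recovers `x`. -/
def Coded {a b : ℕ → ℕ} (c : List ℕ → Str a → Str b) (d : List ℕ → Str b → Str a)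
    (V : Str b → Prop) (x : Str a) : Prop := ∃ p, V (c p x) ∧ d p (c p x) = x

/-- The classes of structures (in all countable relational languages) built from the structures with
complete automorphism groups and from the finite flips of sparse structures by ordered sums,
generalised sums, tree sums, conditions on the infinite prime quotients, countable unions, and
equivariant Borel codings with finitely many parameters. -/
inductive Built : (a : ℕ → ℕ) → (Str a → Prop) → Prop
  | complete (a : ℕ → ℕ) : Built a CompleteAut
  | flip (a : ℕ → ℕ) : Built a FlipSparse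
  | ordSum (a : ℕ → ℕ) (ε : ℕ) (V : Str a → Prop) : a ε = 2 → Built a V → Built a (OrdSum ε V)
  | genSum (a : ℕ → ℕ) (ε : ℕ) (k : ℕ → Bool) (V₁ V₂ : Str a → Prop) : (∀ i, 0 < a i) →
      a ε = 2 → Built a V₁ → Built a V₂ → Built a (GenSum ε k V₁ V₂)
  | treeSum (a : ℕ → ℕ) (δ : ℕ) (V : Str a → Prop) : (∀ i, 0 < a i) → a δ = 3 →
      Built a V → Built a (TreeSum δ V)
  | quotients (a : ℕ → ℕ) (V : Str a → Prop) : (∀ i, 0 < a i) → Built a V →
      Built a (PrimeQuotientsIn V)
  | unions (a : ℕ → ℕ) (V : ℕ → Str a → Prop) : (∀ n, Built a (V n)) →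
      Built a fun x => ∃ n, V n x
  | coding (a b : ℕ → ℕ) (c : List ℕ → Str a → Str b) (d : List ℕ → Str b → Str a)
      (V : Str b → Prop) : Coding c d → Built b V → Built a (Coded c d V)

/-- `V` meets countably many classes of `R`, or there is a Borel map from the Cantor space to `V`
with pairwise `R`-inequivalent values. -/
def Dichotomy {Y : Type} [MeasurableSpace Y] (R : Y → Y → Prop) (V : Set Y) : Prop :=
  (∃ S ⊆ V, S.Countable ∧ ∀ y ∈ V, ∃ z ∈ S, R y z) ∨
    ∃ f : (ℕ → Bool) → Y, Measurable f ∧ (∀ b, f b ∈ V) ∧ ∀ b b', b ≠ b' → ¬ R (f b) (f b')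

/-- Every `R`-invariant Borel set contained in the class `Z` satisfies the dichotomy. -/
def Dichotomic {Y : Type} [MeasurableSpace Y] (R : Y → Y → Prop) (Z : Set Y) : Prop :=
  ∀ C : Set Y, MeasurableSet C → C ⊆ Z → (∀ y ∈ C, ∀ z, R y z → z ∈ C) → Dichotomy R C

/-- The structures `p`, `q` with elements labelled by points of `X` are isomorphic, the labels being
read up to `E`. (Used only in proofs.) -/
def LabelIso {a : ℕ → ℕ} {X : Type} (E : X → X → Prop) (p q : Str a × (ℕ → X)) : Prop :=
  ∃ σ : Equiv.Perm ℕ, IsIso σ p.1 q.1 ∧ ∀ j, E (p.2 j) (q.2 (σ j))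

/-- The orbit equivalence relation of the Polish group `G ≀ Sym(ℕ)`, the semidirect product of
`G ^ ℕ` and `Sym(ℕ)`, on the structures with elements labelled by points of the `G`-space `X`. -/
def WreathOrbit (G : Type) {a : ℕ → ℕ} {X : Type} [SMul G X] (p q : Str a × (ℕ → X)) : Prop :=
  ∃ (σ : Equiv.Perm ℕ) (g : ℕ → G), IsIso σ p.1 q.1 ∧ ∀ j, q.2 (σ j) = g j • p.2 j

/-- `H` is a cli group: the topology of `H` is given by a complete left invariant metric. -/
def IsCLI (H : Type) [τ : TopologicalSpace H] [Group H] : Prop :=
  ∃ d : MetricSpace H, d.toPseudoMetricSpace.toUniformSpace.toTopologicalSpace = τ ∧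
    @CompleteSpace H d.toPseudoMetricSpace.toUniformSpace ∧
    ∀ a b c : H, d.dist (a * b) (a * c) = d.dist b c

/-! ### Proofs -/

namespace Proofs

open Pool.Agent.Results.MP_5df2c5_lc

theorem tame {a : ℕ → ℕ} {V : Str a → Prop} (h : Built a V) : FiniteFlips.Tame a V := by
  induction h with
  | complete a =>
    exact FiniteFlips.Tame.known a _ (Pool.Agent.V8H59.VQ.coan_complete a)
      Pool.Agent.V8H59.VQ.inv_complete (Pool.Agent.V8H59.VQ.uv_complete a)
  | flip a => exact FiniteFlips.Tame.flip a
  | ordSum a ε V hε _ ih =>
    have e : OrdSum ε V = FiniteFlips.OrdSum ε V := by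
      funext x
      exact propext ⟨fun h => ⟨h.irrefl, h.trans, h.weak, h.inside, h.blocks⟩,
        fun h => ⟨h.irrefl, h.trans, h.weak, h.inside, h.blocks⟩⟩
    rw [e]
    exact FiniteFlips.Tame.ordSum a ε V hε ih
  | genSum a ε k V₁ V₂ ha hε _ _ ih1 ih2 =>
    have e : GenSum ε k V₁ V₂ = FiniteFlips.GenSum ε k V₁ V₂ := by
      funext x
      exact propext ⟨fun h => ⟨h.refl, h.symm, h.trans, h.inside, h.across, h.blocks, h.index⟩,
        fun h => ⟨h.refl, h.symm, h.trans, h.inside, h.across, h.blocks, h.index⟩⟩
    rw [e]
    exact FiniteFlips.Tame.genSum a ε k V₁ V₂ ha hε ih1 ih2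
  | treeSum a δ V ha hδ _ ih =>
    have e : TreeSum δ V = FiniteFlips.TreeSum δ V := by
      funext x
      exact propext ⟨fun h => ⟨h.refl, h.irr, h.symm, h.asymm, h.branch, h.mod, h.nodes⟩,
        fun h => ⟨h.refl, h.irr, h.symm, h.asymm, h.branch, h.mod, h.nodes⟩⟩
    rw [e]
    exact FiniteFlips.Tame.treeSum a δ V ha hδ ih
  | quotients a V ha _ ih => exact FiniteFlips.Tame.quotients a V ha ih
  | unions a V _ ih => exact FiniteFlips.Tame.unions a V ih
  | coding a b c d V hcd _ ih =>
    exact FiniteFlips.Tame.coding a b c d V ⟨hcd.borel_c, hcd.borel_d, hcd.act_c, hcd.act_d⟩ ih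

/-- the dichotomy for the invariant Borel subsets of a space with cli stabilizers -/
theorem orbits (G : Type) [TopologicalSpace G] [Group G] [IsTopologicalGroup G] [PolishSpace G]
    [MeasurableSpace G] [BorelSpace G] (X : Type) [MeasurableSpace X] [StandardBorelSpace X]
    [MulAction G X] [MeasurableSMul₂ G X]
    (h : {o : Quotient (MulAction.orbitRel G X) |
      ∃ x : X, Quotient.mk _ x = o ∧ ¬ IsCLI (MulAction.stabilizer G x)}.Countable) :
    Dichotomic (fun x y : X => ∃ g : G, g • x = y) Set.univ := by
  intro C hC _ hCi
  let S : SubMulAction G X := ⟨C, fun g {x} hx => hCi x hx _ ⟨g, rfl⟩⟩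
  haveI : StandardBorelSpace S := hC.standardBorel
  haveI : MeasurableSMul₂ G S := ⟨by
    refine Measurable.subtype_mk ?_
    have hm : Measurable fun p : G × X => p.1 • p.2 := measurable_smul
    exact hm.comp (measurable_fst.prodMk (measurable_subtype_coe.comp measurable_snd))⟩
  let φ : Quotient (MulAction.orbitRel G S) → Quotient (MulAction.orbitRel G X) :=
    Quotient.map' Subtype.val fun x y hxy => by
      obtain ⟨g, hg⟩ := hxy
      exact ⟨g, congrArg Subtype.val hg⟩
  have hφ : Function.Injective φ := by
    intro o o' hoo
    obtain ⟨x, rfl⟩ := Quotient.exists_rep o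
    obtain ⟨y, rfl⟩ := Quotient.exists_rep o'
    have h1 : Quotient.mk (MulAction.orbitRel G X) (x : X) =
        Quotient.mk (MulAction.orbitRel G X) (y : X) := hoo
    obtain ⟨g, hg⟩ := Quotient.exact h1
    exact Quotient.sound ⟨g, Subtype.ext hg⟩
  have h' : {o : Quotient (MulAction.orbitRel G S) | ∃ x : S, Quotient.mk _ x = o ∧
      ¬ CompleteStabilizers.IsCLI (MulAction.stabilizer G x)}.Countable := by
    refine (h.preimage_of_injOn (f := φ) hφ.injOn).mono ?_
    rintro _ ⟨x, rfl, hx⟩
    refine ⟨(x : X), rfl, fun hcli => hx ?_⟩
    have e : MulAction.stabilizer G x = MulAction.stabilizer G (x : X) := by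
      ext g
      rw [MulAction.mem_stabilizer_iff, MulAction.mem_stabilizer_iff]
      exact ⟨fun h => congrArg Subtype.val h, fun h => Subtype.ext h⟩
    rw [e]
    exact hcli
  rcases CompleteStabilizers.result G S h' with hc | ⟨f, hf, hf2⟩
  · left
    let r : Quotient (MulAction.orbitRel G S) → X := fun o => (o.out : S)
    refine ⟨Set.range r, ?_, Set.countable_range r, fun y hy => ?_⟩
    · rintro _ ⟨o, rfl⟩
      exact (o.out : S).2
    · refine ⟨r (Quotient.mk _ (⟨y, hy⟩ : S)), ⟨_, rfl⟩, ?_⟩
      have h1 : (MulAction.orbitRel G S).r (Quotient.mk (MulAction.orbitRel G S)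
          (⟨y, hy⟩ : S)).out (⟨y, hy⟩ : S) := Quotient.exact (Quotient.out_eq _)
      obtain ⟨g, hg⟩ := (MulAction.orbitRel G S).symm' h1
      refine ⟨g⁻¹, ?_⟩
      have h2 : g • ((Quotient.mk (MulAction.orbitRel G S) (⟨y, hy⟩ : S)).out : X) = y :=
        congrArg Subtype.val hg
      rw [inv_smul_eq_iff]
      exact h2.symm
  · right
    refine ⟨fun b => (f b : X), measurable_subtype_coe.comp hf, fun b => (f b).2,
      fun b b' hb hg => ?_⟩
    obtain ⟨g, hg⟩ := hg
    exact hf2 b b' hb ⟨g, Subtype.ext hg⟩

end Proofs

/-- The dichotomy for structures with labels in a space with an analytic equivalence relation. -/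
theorem Proofs.labels (X : Type) [TopologicalSpace X] [PolishSpace X] [MeasurableSpace X]
    [BorelSpace X] (E : X → X → Prop) (hE : Equivalence E)
    (hEa : AnalyticSet {q : X × X | E q.1 q.2}) (Z : Set X) (hZ : Dichotomic E Z) (a : ℕ → ℕ)
    (V : Str a → Prop) (hV : Built a V) :
    Dichotomic (LabelIso E) {p : Str a × (ℕ → X) | V p.1 ∧ ∀ j, p.2 j ∈ Z} :=
  Pool.Agent.V8H59.VQ.lab
    (Pool.Agent.Results.MP_5df2c5_lc.FiniteFlips.result a V (Proofs.tame hV)).1 hE hEa Z hZ

/-- Let `V` be a class in `Built`; for example, `V` is the class of the structures all of whose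
infinite prime quotients have complete automorphism groups. (1) Let `G` be a Polish group and `X` a
Borel `G`-space such that at most countably many orbits have stabilizers that are not cli. Then
every Borel set, invariant under `G ≀ Sym(ℕ)`, of structures in `V` with elements labelled by points
of `X` has countably many or perfectly many orbits. (2) For trivial `G` this is Vaught's conjecture
(perfect-set form, Borel classes, with or without unary predicates) for the structures in `V`; here
the families of inequivalent structures can be chosen continuous. -/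
theorem result :
    -- wreath products of arbitrary Polish groups
    (∀ (G : Type) [TopologicalSpace G] [Group G] [IsTopologicalGroup G] [PolishSpace G]
      [MeasurableSpace G] [BorelSpace G] (X : Type) [MeasurableSpace X] [StandardBorelSpace X]
      [MulAction G X] [MeasurableSMul₂ G X],
      {o : Quotient (MulAction.orbitRel G X) |
        ∃ x : X, Quotient.mk _ x = o ∧ ¬ IsCLI (MulAction.stabilizer G x)}.Countable →
      ∀ (a : ℕ → ℕ) (V : Str a → Prop), Built a V →
        Dichotomic (WreathOrbit G) {p : Str a × (ℕ → X) | V p.1}) ∧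
    -- countable structures
    ∀ (a : ℕ → ℕ) (V : Str a → Prop), Built a V → UVaught V ∧ Vaught V := by
  refine ⟨?_, fun a V hV =>
    Pool.Agent.Results.MP_5df2c5_lc.FiniteFlips.result a V (Proofs.tame hV)⟩
  intro G _ _ _ _ _ _ X _ _ _ _ h a V hV
  let _ := upgradeStandardBorel X
  have h1 := Proofs.labels X (fun x y : X => ∃ g : G, g • x = y) (Pool.Agent.N649.WL.orb_equiv G)
    (Pool.Agent.N649.WL.orb_ana G) Set.univ (Proofs.orbits G X h) a V hV
  intro C hC hCV hCi
  have e : ∀ p q : Str a × (ℕ → X), WreathOrbit G p q ↔
      LabelIso (fun x y : X => ∃ g : G, g • x = y) p q := by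
    intro p q
    constructor
    · rintro ⟨σ, g, h2, h3⟩
      exact ⟨σ, h2, fun j => ⟨g j, (h3 j).symm⟩⟩
    · rintro ⟨σ, h2, h3⟩
      choose g hg using h3
      exact ⟨σ, g, h2, fun j => (hg j).symm⟩
  rcases h1 C hC (fun p hp => ⟨hCV hp, fun _ => trivial⟩)
    (fun y hy z hyz => hCi y hy z ((e y z).2 hyz)) with ⟨S, h2, h3, h4⟩ | ⟨f, h2, h3, h4⟩
  · left
    refine ⟨S, h2, h3, fun y hy => ?_⟩
    obtain ⟨z, hz, hyz⟩ := h4 y hy
    exact ⟨z, hz, (e y z).2 hyz⟩
  · right
    exact ⟨f, h2, h3, fun b b' hb hbb => h4 b b' hb ((e _ _).1 hbb)⟩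

end Pool.Agent.Results.MP_5607ba_lc.CompletePieces
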