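import Pool.Agent.V8H60.TX.Ext
import Pool.Agent.V8H83.TX.T0

set_option autoImplicit false

/-!
# The topological Vaught conjecture and extensions by locally compact groups

Let `Vaught G` be the topological Vaught conjecture for the Polish group `G`: every Borel action of
`G` on a standard Borel space has countably many or perfectly many orbits. Let `V` be an open
subgroup of `G`, let `q` be a continuous homomorphism from `V` onto a Polish group `L` and `r` a
continuous homomorphism from `L` onto a Polish group `W`, and suppose that the kernel of `r` is
compact, or that it is locally compact and `W` is nonarchimedean. We prove: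

(1) If the kernel of `q` is compact, then `Vaught G` is equivalent to `Vaught W`.

(2) If `X` is a Borel `G`-space such that the orbits of the kernel of `q` in `X` are the fibres of a
Borel function, then `Vaught W` implies the dichotomy for `X`.

For `V = L = G` and `q` the identity, (1) says that `Vaught G` is equivalent to `Vaught (G/N)` for
every compact normal subgroup `N` of `G`, and for every closed normal subgroup `N` which is locally
compact and has a nonarchimedean quotient `G/N`. So the conjecture for the group of all permutations
of a countable set (which implies it for all nonarchimedean groups) implies the conjecture for all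
Polish groups which have an open subgroup that is an extension of a nonarchimedean group by a
locally compact group.

Proof. The orbits of a compact group are the fibres of the map which sends a point to the image of
the Haar measure under the orbit map. If the orbits of a closed normal subgroup `N` are the fibres
of a Borel function, then the range of this function is Borel, by means of the ideals of sets which
are meager in the orbits and by the Lusin–Souslin theorem; so `X/N` is a standard Borel space with a
Borel action of the quotient group. For open subgroups one uses that an orbit of `G` consists of
countably many orbits of `V` and that analytic relations on the Cantor space with countable sections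
have perfect independent sets, and for the converse the induced action on `G/V × X`.

Now let `N` be the kernel of a continuous homomorphism `q` from `G` onto `W`, with `N` locally
compact and `W` nonarchimedean, and let `U` and `C` be compact symmetric neighbourhoods of `1` in
`N` with `U³ ⊆ C`. A Borel `G`-space has countably many Borel functions which separate the points and
are uniformly continuous along the action, and by compactness countably many such functions `f`
such that for every `x` one of them is at least `3/4` at `x` and `0` at all `m x` outside `U x`
with `m` in a compact neighbourhood of `C`. Let `P` be a small symmetric neighbourhood of `1` in `G`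
that is mapped onto an open subgroup `V'` of `W`. Call `z` good if for every `p` in `P` there is `u`
in `U` such that `z' = u p z` satisfies `f(z') ≥ 1/2`, and `f(m z') > 1/4` with `m` in `C` only if
`m z'` is in `U z'`. As `P P` is contained in `P` times a small subset of `N`, the group `V'` acts on
the classes of good points with respect to the relation of being in the same orbit of `C`. These
classes are compact, so there is a Borel set of representatives (the points which are
lexicographically minimal with respect to the separating functions), and `V'` acts on it in a Borel
way. An orbit of `G` contains countably many orbits of `V'` of representatives, and the space is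
covered by the `N`-orbits of the representatives for countably many functions `f`.
-/

namespace Pool.Agent.Results.MP_5607ba_lc.LocalUpToCompact

open Set Filter Topology

/-- The dichotomy for an action: there are countably many orbits, or there is a Borel map from the
Cantor space that sends distinct points to distinct orbits. -/
def Dichotomy (G X : Type) [Group G] [MeasurableSpace X] [MulAction G X] : Prop :=
  Countable (Quotient (MulAction.orbitRel G X)) ∨
    ∃ f : (ℕ → Bool) → X, Measurable f ∧ ∀ x y : ℕ → Bool, x ≠ y → ¬ ∃ g : G, g • f x = f y

/-- The topological Vaught conjecture for the group `G`. -/
def Vaught (G : Type) [Group G] [MeasurableSpace G] : Prop :=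
  ∀ (X : Type) [MeasurableSpace X] [StandardBorelSpace X] [MulAction G X] [MeasurableSMul₂ G X],
    Dichotomy G X

/-- The theorem. -/
theorem result (G L W : Type) [TopologicalSpace G] [Group G] [IsTopologicalGroup G]
    [PolishSpace G] [MeasurableSpace G] [BorelSpace G] [TopologicalSpace L] [Group L]
    [IsTopologicalGroup L] [PolishSpace L] [TopologicalSpace W] [Group W]
    [IsTopologicalGroup W] [PolishSpace W] [MeasurableSpace W] [BorelSpace W]
    -- an open subgroup `V` of `G`, and homomorphisms of `V` onto `L` and of `L` onto `W`
    (V : Subgroup G) (hV : IsOpen (V : Set G)) (q : V →* L) (hq : Continuous q)
    (hqs : Function.Surjective q) (r : L →* W) (hr : Continuous r)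
    (hrs : Function.Surjective r)
    -- the kernel of `r` is compact, or it is locally compact and `W` is nonarchimedean
    (hker : IsCompact (r.ker : Set L) ∨ LocallyCompactSpace r.ker ∧ NonarchimedeanGroup W) :
    (IsCompact (q.ker : Set V) → (Vaught G ↔ Vaught W)) ∧
      (Vaught W → ∀ (X : Type) [MeasurableSpace X] [StandardBorelSpace X] [MulAction G X]
        [MeasurableSMul₂ G X] (c : X → ℝ), Measurable c →
        (∀ x y, c x = c y ↔ ∃ v ∈ q.ker, (v : G) • x = y) → Dichotomy G X) := by
  let _ : MeasurableSpace L := borel L
  have _ : BorelSpace L := ⟨rfl⟩
  have _ : PolishSpace V := hV.polishSpace
  have h1 : Pool.Agent.V8H60.TV.TVC L ↔ Pool.Agent.V8H60.TV.TVC W := by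
    rcases hker with hK | ⟨hN, hna⟩
    · exact Pool.Agent.V8H60.TV.tvc_compact r hr hrs hK
    · exact ⟨Pool.Agent.V8H60.TV.tvc_quot r hr hrs,
        Pool.Agent.V8H60.TX.tvc_ext r hr (Pool.Agent.V8H83.TX.open_map r hr hrs) hN⟩
  refine ⟨fun hK => ?_, fun hVW X _ _ _ _ c hc hcq => ?_⟩
  · show Pool.Agent.V8H60.TV.TVC G ↔ Pool.Agent.V8H60.TV.TVC W
    rw [Pool.Agent.V8H60.TV.tvc_open hV, Pool.Agent.V8H60.TV.tvc_compact q hq hqs hK, h1]
  · have hm : Measurable fun r : G × X => r.1 • r.2 := measurable_smul
    have _ : MeasurableSMul₂ V X :=
      ⟨hm.comp ((measurable_subtype_coe.comp measurable_fst).prodMk measurable_snd)⟩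
    obtain ⟨Y, _, _, _, _, p, hp, hps, heq, hpo⟩ :=
      Pool.Agent.V8H60.TV.exists_quot q hq hqs c hc hcq
    refine Pool.Agent.V8H60.TV.dich_up hm hV ((Pool.Agent.V8H60.TV.dich_quot hqs hp hps heq
      fun x y hxy => ?_).2 (h1.2 hVW Y))
    obtain ⟨n, -, hn⟩ := (hpo x y).1 hxy
    exact ⟨n, hn⟩

end Pool.Agent.Results.MP_5607ba_lc.LocalUpToCompact
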