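import Pool.Agent.V8H93.SV.Coa

set_option autoImplicit false

/-!
# Vaught's conjecture for linearly ordered structures whose relations span scattered intervals

Let `Sym(ℕ)` act on the countable structures in a countable relational language with relations of
arbitrary arities. A linear order is scattered if it contains no copy of the rationals.

(1) The countable-or-perfect dichotomy holds for the orbits in every invariant Borel set of
linearly ordered structures such that for each tuple of each relation (other than the order) the
intervals between the entries of the tuple are scattered. There is no other condition on the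
relations, and none on the order (if all relations are unary this is Rubin's theorem; if the order
is scattered there is no condition on the relations).

(2) More generally: let two elements be equivalent if they are so for every convex equivalence
relation for which the entries of each tuple of each relation are equivalent. The dichotomy holds
if the automorphism group of each class (with the induced structure) is complete: pointwise limits
of automorphisms are onto (this means that it is a cli group).

(3) The dichotomy holds for structures with an invariant scattered order, which need not be part of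
the structure: for each structure `x` there are finitely many elements and a scattered linear order
on `ℕ` which is preserved by all automorphisms of `x` that fix these elements.

(4) It holds for all structures which can be coded, with finitely many parameters, by structures as
in (1): it is enough that a linear order as in (1) is definable in `L_ω₁ω` with finitely many
parameters.

Proof. Let `j` be the pointwise limit of automorphisms `g n` of a scattered order. By Zorn's lemma
there is a maximal convex equivalence relation `E` that is preserved by all `g n` and for which the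
range of `j` is a union of classes. If an interval `[x, j b]` meets only finitely many classes, then
the points `(g n)⁻¹ x` lie, for large `n`, in one class, because the interval
`[(g n)⁻¹ x, b]` meets the same number of classes; so `x` is equivalent to a point in the range of
`j`. By maximality, therefore, no two classes are neighbours, and if there were two classes the
order would contain a copy of the rationals. So `j` is onto. This proves that automorphism groups
of structures with an invariant scattered order are complete, and (3) follows from the theorem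
on actions with cli stabilizers (`CompleteStabilizers`). A structure as in (2) is an ordered sum of
its classes, and the dichotomy is preserved by ordered sums (starting file
`MP_5df2c5_lc.GeneralisedSums`). The classes of a structure as in (1) are scattered.
-/

namespace Pool.Agent.Results.MP_5607ba_lc.ScatteredSpans

/-- Relational structures on `ℕ` with relations of arities `a 0, a 1, ...`. -/
abbrev Str (a : ℕ → ℕ) : Type := (i : ℕ) → (Fin (a i) → ℕ) → Bool

/-- Structures with further unary predicates. -/
abbrev UStr (a : ℕ → ℕ) : Type := Str a × (ℕ → ℕ → Bool)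

/-- Isomorphism of structures: they are in the same orbit of the group of all permutations. -/
def Iso {a : ℕ → ℕ} (x y : Str a) : Prop :=
  ∃ σ : Equiv.Perm ℕ, ∀ (i : ℕ) (v : Fin (a i) → ℕ), y i (⇑σ ∘ v) = x i v

/-- Isomorphism of structures with unary predicates. -/
def UIso {a : ℕ → ℕ} (x y : UStr a) : Prop :=
  ∃ σ : Equiv.Perm ℕ, (∀ (i : ℕ) (v : Fin (a i) → ℕ), y.1 i (⇑σ ∘ v) = x.1 i v) ∧
    ∀ i u, y.2 i (σ u) = x.2 i u

/-- The class `V` satisfies the countable-or-perfect dichotomy: every isomorphism-invariant Borel
subclass `B` of `V` has countably many isomorphism types, or there is a continuous family of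
pairwise non-isomorphic members of `B` indexed by the Cantor space. -/
def Vaught {a : ℕ → ℕ} (V : Str a → Prop) : Prop :=
  ∀ B : Set (Str a), MeasurableSet B → (∀ x y, Iso x y → (x ∈ B ↔ y ∈ B)) → (∀ x ∈ B, V x) →
    (∃ f : ℕ → Str a, ∀ x ∈ B, ∃ n, Iso (f n) x) ∨
    (∃ g : (ℕ → Bool) → Str a, Continuous g ∧ (∀ c, g c ∈ B) ∧ ∀ c d, Iso (g c) (g d) → c = d)

/-- The same for the isomorphism-invariant Borel classes of expansions of members of `V` by
countably many unary predicates. -/
def UVaught {a : ℕ → ℕ} (V : Str a → Prop) : Prop :=
  ∀ B : Set (UStr a), MeasurableSet B → (∀ x y, UIso x y → (x ∈ B ↔ y ∈ B)) →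
    (∀ x ∈ B, V x.1) →
    (∃ f : ℕ → UStr a, ∀ x ∈ B, ∃ n, UIso (f n) x) ∨
    (∃ g : (ℕ → Bool) → UStr a, Continuous g ∧ (∀ c, g c ∈ B) ∧
      ∀ c d, UIso (g c) (g d) → c = d)

/-- The tuple `(u, v)`. -/
def pair {n : ℕ} (u v : ℕ) : Fin n → ℕ := fun j => if j.val = 0 then u else v

/-- A strict linear order on `ℕ`. -/
structure StrictLinear (r : ℕ → ℕ → Prop) : Prop where
  irrefl : ∀ u, ¬ r u u
  trans : ∀ u v w, r u v → r v w → r u w
  total : ∀ u v, u = v ∨ r u v ∨ r v u

/-- The set `A` contains no copy of the rationals. -/
def Scattered (r : ℕ → ℕ → Prop) (A : Set ℕ) : Prop :=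
  ¬ ∃ f : ℚ → ℕ, (∀ p q, p < q → r (f p) (f q)) ∧ ∀ p, f p ∈ A

/-- The closed interval from `u` to `v`. -/
def interval (r : ℕ → ℕ → Prop) (u v : ℕ) : Set ℕ := {w | (u = w ∨ r u w) ∧ (w = v ∨ r w v)}

/-- The order given by the relation number `ε`. -/
def order {a : ℕ → ℕ} (ε : ℕ) (x : Str a) (u v : ℕ) : Prop := x ε (pair u v) = true

/-- The relation number `ε` is a strict linear order, and for any two entries of a tuple of any
other relation the interval between them is scattered. -/
structure HasScatteredSpans {a : ℕ → ℕ} (ε : ℕ) (x : Str a) : Prop where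
  linear : StrictLinear (order ε x)
  spans : ∀ i, i ≠ ε → ∀ t : Fin (a i) → ℕ, x i t = true → ∀ j l,
    Scattered (order ε x) (interval (order ε x) (t j) (t l))

/-- `u` and `v` are equivalent for every convex equivalence relation for which any two entries of a
tuple of any relation other than the order are equivalent. -/
def SameBlock {a : ℕ → ℕ} (ε : ℕ) (x : Str a) (u v : ℕ) : Prop :=
  ∀ E : ℕ → ℕ → Prop, Equivalence E →
    (∀ p q w, E p q → w ∈ interval (order ε x) p q → E p w) →
    (∀ i, i ≠ ε → ∀ t : Fin (a i) → ℕ, x i t = true → ∀ j l, E (t j) (t l)) → E u v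

/-- The automorphism group of `x` is complete: if automorphisms `g n` of `x` converge pointwise to a
map `j`, then `j` is onto. -/
def CompleteAut {a : ℕ → ℕ} (x : Str a) : Prop :=
  ∀ (g : ℕ → Equiv.Perm ℕ) (j : ℕ → ℕ), (∀ n i v, x i (⇑(g n) ∘ v) = x i v) →
    (∀ m, ∃ N, ∀ n, N ≤ n → g n m = j m) → Function.Surjective j

/-- The relation number `ε` is a strict linear order, and the automorphism groups of the infinite
blocks are complete. -/
structure CompleteBlocks {a : ℕ → ℕ} (ε : ℕ) (x : Str a) : Prop where
  linear : StrictLinear (order ε x)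
  blocks : ∀ (u : ℕ) (e : ℕ → ℕ), Function.Injective e →
    (∀ z, SameBlock ε x u z ↔ ∃ n, e n = z) → CompleteAut (fun i v => x i (e ∘ v) : Str a)

/-- There are a finite set `P` and a scattered strict linear order on `ℕ` that is preserved by all
automorphisms of `x` fixing the elements of `P`. -/
def InvariantScattered {a : ℕ → ℕ} (x : Str a) : Prop :=
  ∃ (P : Finset ℕ) (r : ℕ → ℕ → Prop), StrictLinear r ∧ Scattered r Set.univ ∧
    ∀ g : Equiv.Perm ℕ, (∀ i v, x i (⇑g ∘ v) = x i v) → (∀ u ∈ P, g u = u) →
      ∀ u v, r (g u) (g v) ↔ r u v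

/-- Relabelling of a structure by a permutation. -/
def act {a : ℕ → ℕ} (σ : Equiv.Perm ℕ) (x : Str a) : Str a := fun i v => x i (⇑σ.symm ∘ v)

/-- For every tuple of parameters `p` there are Borel maps `c p` and `d p` in both directions, and
they commute with the permutations of `ℕ`. (By the theorem of Lopez-Escobar these are the
interpretations given by formulas of `L_ω₁ω` with the parameters `p`.) -/
structure Coding {a b : ℕ → ℕ} (c : List ℕ → Str a → Str b) (d : List ℕ → Str b → Str a) :
    Prop where
  borel_c : ∀ p, Measurable (c p)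
  borel_d : ∀ p, Measurable (d p)
  act_c : ∀ (σ : Equiv.Perm ℕ) (p : List ℕ) (x : Str a), c (p.map σ) (act σ x) = act σ (c p x)
  act_d : ∀ (σ : Equiv.Perm ℕ) (p : List ℕ) (z : Str b), d (p.map σ) (act σ z) = act σ (d p z)

/-- The structures `x` which, for some finite tuple of parameters `p`, are coded by a structure
`c p x` in `V`, from which `d p` recovers `x`. -/
def Coded {a b : ℕ → ℕ} (c : List ℕ → Str a → Str b) (d : List ℕ → Str b → Str a)
    (V : Str b → Prop) (x : Str a) : Prop := ∃ p, V (c p x) ∧ d p (c p x) = x

/-! ### Proofs -/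

open Pool.Agent.V8H93.SV (Lin Near Adj Le Lt LS Cb)

theorem lin_iff {a : ℕ → ℕ} {ε : ℕ} {x : Str a} : StrictLinear (order ε x) ↔ Lin ε x :=
  ⟨fun h => ⟨h.irrefl, h.trans, h.total⟩, fun h => ⟨h.irrefl, h.trans, h.total⟩⟩

theorem mem_interval {a : ℕ → ℕ} {ε : ℕ} {x : Str a} {u v w : ℕ} :
    w ∈ interval (order ε x) u v ↔ Le ε x u w ∧ Le ε x w v := Iff.rfl

theorem sameBlock_iff {a : ℕ → ℕ} {ε : ℕ} {x : Str a} (h : Lin ε x) (u v : ℕ) :
    SameBlock ε x u v ↔ Near ε x u v := by
  constructor
  · intro h1
    refine h1 (Near ε x) ⟨Pool.Agent.V8H93.SV.near_refl x, Pool.Agent.V8H93.SV.near_symm,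
      Pool.Agent.V8H93.SV.near_trans⟩ (fun p q w h2 h3 => ?_) (fun i hi t ht j l => ?_)
    · exact h.conv h2 w (Or.inl h3)
    · rcases h.le_total (t j) (t l) with h4 | h4
      · exact .single ⟨i, hi, t, ht, j, l, ⟨Or.inl rfl, h4⟩, h4, Or.inl rfl⟩
      · exact .single ⟨i, hi, t, ht, l, j, ⟨h4, Or.inl rfl⟩, Or.inl rfl, h4⟩
  · intro h1 E hE hc hr
    unfold Near at h1
    induction h1 with
    | refl => exact hE.refl u
    | @tail w v _ h3 ih =>
      obtain ⟨i, hi, t, ht, j, l, h4, h5⟩ := h3
      have h6 := hr i hi t ht j l
      exact hE.trans ih (hE.trans (hE.symm (hc _ _ _ h6 h4)) (hc _ _ _ h6 h5))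

theorem spans_iff {a : ℕ → ℕ} {ε : ℕ} : (HasScatteredSpans ε : Str a → Prop) = LS ε := by
  funext x
  exact propext ⟨fun h => ⟨lin_iff.1 h.linear, h.spans⟩, fun h => ⟨lin_iff.2 h.1, h.2⟩⟩

theorem blocks_iff {a : ℕ → ℕ} {ε : ℕ} {x : Str a} (h : CompleteBlocks ε x) : Cb ε x := by
  have hl := lin_iff.1 h.linear
  refine ⟨hl, fun u e he hr => h.blocks u e he fun z => ?_⟩
  rw [sameBlock_iff hl]
  exact hr z

/-- The countable-or-perfect dichotomy for the linearly ordered structures whose relations span
scattered intervals, for those with complete blocks, for the structures with an invariant scattered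
order, and for the structures which can be coded by structures of the first kind. -/
theorem result :
    (∀ (a : ℕ → ℕ) (ε : ℕ), a ε = 2 →
      (Vaught (HasScatteredSpans ε : Str a → Prop) ∧ UVaught (HasScatteredSpans ε : Str a → Prop)) ∧
      (Vaught (CompleteBlocks ε : Str a → Prop) ∧ UVaught (CompleteBlocks ε : Str a → Prop))) ∧
    (∀ a : ℕ → ℕ, Vaught (InvariantScattered : Str a → Prop) ∧
      UVaught (InvariantScattered : Str a → Prop)) ∧
    (∀ (a b : ℕ → ℕ) (c : List ℕ → Str a → Str b) (d : List ℕ → Str b → Str a), Coding c d →
      ∀ ε : ℕ, b ε = 2 →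
        Vaught (Coded c d (HasScatteredSpans ε)) ∧ UVaught (Coded c d (HasScatteredSpans ε))) := by
  have key : ∀ (a : ℕ → ℕ) (V : Str a → Prop), UVaught V → Vaught V ∧ UVaught V :=
    fun a V h => ⟨Pool.Agent.H533R2.VS.vs_plain a V h, h⟩
  refine ⟨fun a ε hε => ⟨key _ _ ?_, key _ _ ?_⟩, fun a => key _ _ ?_,
    fun a b c d hcd ε hε => key _ _ ?_⟩
  · rw [spans_iff]
    exact Pool.Agent.V8H93.SV.vcu_spans hε
  · intro B hB hi hBV
    exact Pool.Agent.V8H93.SV.vcu_cb hε B hB hi fun x hx => blocks_iff (hBV x hx)
  · refine Pool.Agent.V8H93.SV.vcu_lim _ ?_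
    rintro x ⟨P, r, hl, hs, hr⟩
    refine Pool.Agent.V8H93.SV.lim_of_inv hl.irrefl hl.trans hl.total ?_ hr
    rintro ⟨f, hf⟩
    exact hs ⟨f, hf, fun _ => trivial⟩
  · rw [spans_iff]
    exact Pool.Agent.TH425.FF.pexp_vcu ⟨hcd.borel_c, hcd.borel_d, hcd.act_c, hcd.act_d⟩
      (Pool.Agent.V8H93.SV.vcu_spans hε) Pool.Agent.V8H93.SV.coan_ls Pool.Agent.V8H93.SV.inv_ls

end Pool.Agent.Results.MP_5607ba_lc.ScatteredSpans
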